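import Pool.Agent.Helper69.MC.StB
import Pool.Agent.Helper53.MF.M_G0

/-!
# Project MC (MP_9583f0_gt), module FRG: a point with a plane as contingent cone is regular
-/

set_option autoImplicit false

open Set Topology Filter MeasureTheory
open Pool.Agent.Helper31.CY Pool.Agent.Helper69.MF Pool.Agent.Helper69.MC

namespace Pool.Agent.Helper86.MC

/-- a point of `S` off `Γ` whose contingent cone is a plane is regular -/
theorem hFRG : StTC1 → StMDY → StMDT → StFRG := by
  intro hTC hY hT S Γ hM q hq hqΓ hpl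
  obtain ⟨N, -, hN⟩ := hpl
  have hsym : ∀ v ∈ TCn S q, -v ∈ TCn S q := by
    intro v hv
    rw [hN, mem_setOf_eq] at hv ⊢
    rw [Pool.Agent.Helper53.MF.dt_neg', hv, neg_zero]
  rcases hM.int q hq hqΓ with h1 | h1 | h1
  · exact h1
  · exact absurd h1 (Pool.Agent.Helper53.MF.not_model hTC S Ycone hY.1 hY.2.1 q hsym
      (Pool.Agent.Helper53.MF.y_asym hY))
  · exact absurd h1 (Pool.Agent.Helper53.MF.not_model hTC S Tcone hT.1 hT.2.1 q hsym
      Pool.Agent.Helper53.MF.t_asym)

end Pool.Agent.Helper86.MC
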